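import Mathlib
import Pool.Agent.H925R3.RR.Stubs
set_option autoImplicit false

/-! Upper bound for the heights of `P + Q` and `P - Q` (task HUP of project RR). -/

namespace Pool.Agent.Helper94.RRHUP

open Pool.Agent.H925R3.DC Pool.Agent.H925R3.DD Pool.Agent.H925R3.RR

/-- the multiplicative height of a rational number -/
def mx (q : ℚ) : ℤ := max |q.num| (q.den : ℤ)

theorem one_le_mx (q : ℚ) : 1 ≤ mx q := by
  have : (1 : ℤ) ≤ q.den := by exact_mod_cast q.den_pos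
  exact le_trans this (le_max_right _ _)

theorem ht_eq (q : ℚ) : ht q = Real.log ((mx q : ℤ) : ℝ) := rfl

theorem ht_nonneg (q : ℚ) : 0 ≤ ht q := by
  rw [ht_eq]
  apply Real.log_nonneg
  exact_mod_cast one_le_mx q

theorem num_eq (q : ℚ) : (q.num : ℚ) = q * (q.den : ℚ) := (Rat.mul_den_eq_num q).symm

theorem quot_bound (w : ℚ) (F G : ℤ) (hG : G ≠ 0) (h : w * (G : ℚ) = (F : ℚ)) :
    ∀ B : ℤ, |F| ≤ B → |G| ≤ B → mx w ≤ B := by
  intro B hF hGB
  have hden : (w.den : ℚ) ≠ 0 := by exact_mod_cast w.den_nz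
  have h1 : w.num * G = F * (w.den : ℤ) := by
    have : (w.num : ℚ) * G = F * (w.den : ℚ) := by
      rw [num_eq w]
      linear_combination (w.den : ℚ) * h
    exact_mod_cast this
  have hc : IsCoprime (w.den : ℤ) w.num := by
    have := w.reduced
    rw [Int.isCoprime_iff_gcd_eq_one]
    rw [Int.gcd_comm]
    simpa [Int.gcd, Nat.Coprime] using this
  have hd : (w.den : ℤ) ∣ G := by
    apply hc.dvd_of_dvd_mul_left
    exact ⟨F, by rw [h1]; ring⟩
  obtain ⟨t, ht⟩ := hd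
  have ht0 : t ≠ 0 := by
    rintro rfl
    apply hG
    rw [ht]; ring
  have hdz : (w.den : ℤ) ≠ 0 := by exact_mod_cast w.den_nz
  have hFt : F = w.num * t := by
    have : (w.den : ℤ) * F = (w.den : ℤ) * (w.num * t) := by
      rw [ht] at h1
      linear_combination -h1
    exact mul_left_cancel₀ hdz this
  have ht1 : 1 ≤ |t| := Int.one_le_abs ht0
  refine max_le ?_ ?_
  · calc |w.num| = |w.num| * 1 := by ring
      _ ≤ |w.num| * |t| := by gcongr
      _ = |F| := by rw [hFt, abs_mul]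
      _ ≤ B := hF
  · have h2 : (0 : ℤ) ≤ w.den := by positivity
    calc (w.den : ℤ) = |(w.den : ℤ)| * 1 := by rw [abs_of_nonneg h2]; ring
      _ ≤ |(w.den : ℤ)| * |t| := by gcongr
      _ = |G| := by rw [ht, abs_mul]
      _ ≤ B := hGB

theorem bez (p q r s U0 U1 U2 α β γ δ : ℤ) (h1 : α * p + β * q = 1) (h2 : γ * r + δ * s = 1)
    (e1 : (p * s + r * q) * U0 = U1 * (q * s)) (e2 : (p * r) * U0 = U2 * (q * s)) :
    ∃ t, U0 = (q * s) * t := by
  refine ⟨(α * γ * U2 + β * δ * U0 + β * γ * U1) *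
      (α * γ * (p * r) + β * δ * (q * s) + β * γ * (p * s + r * q)) +
      2 * (α * γ * U2 + β * δ * U0 + β * γ * U1) * (α * δ - β * γ) * p * s +
      (α * δ - β * γ) ^ 2 * s * (p * U1 - q * U2), ?_⟩
  have hX : α * γ * (p * r) + β * δ * (q * s) + β * γ * (p * s + r * q) +
      (α * δ - β * γ) * (p * s) = 1 := by
    linear_combination (γ * r + δ * s) * h1 + h2
  have hU : U0 * (α * γ * (p * r) + β * δ * (q * s) + β * γ * (p * s + r * q) +
      (α * δ - β * γ) * (p * s)) ^ 2 =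
      (q * s) * ((α * γ * U2 + β * δ * U0 + β * γ * U1) *
      (α * γ * (p * r) + β * δ * (q * s) + β * γ * (p * s + r * q)) +
      2 * (α * γ * U2 + β * δ * U0 + β * γ * U1) * (α * δ - β * γ) * p * s +
      (α * δ - β * γ) ^ 2 * s * (p * U1 - q * U2)) := by
    linear_combination
      (β * γ * (α * γ * (p * r) + β * δ * (q * s) + β * γ * (p * s + r * q)) +
        2 * (β * γ) * (α * δ - β * γ) * p * s + (α * δ - β * γ) ^ 2 * s * p) * e1 +
      (α * γ * (α * γ * (p * r) + β * δ * (q * s) + β * γ * (p * s + r * q)) +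
        2 * (α * γ) * (α * δ - β * γ) * p * s - (α * δ - β * γ) ^ 2 * s * q) * e2
  rw [hX] at hU
  linear_combination hU

theorem four_cases (P Q R S B : ℤ) (hP : 0 ≤ P) (hQ : 0 ≤ Q) (hR : 0 ≤ R) (hS : 0 ≤ S)
    (h0 : Q * S ≤ B) (h1 : P * S - R * Q ≤ B) (h1' : R * Q - P * S ≤ B) (h2 : P * R ≤ B) :
    max P Q * max R S ≤ 2 * B := by
  have hB : 0 ≤ B := le_trans (mul_nonneg hQ hS) h0
  rcases le_total P Q with hPQ | hPQ <;> rcases le_total R S with hRS | hRS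
  · rw [max_eq_right hPQ, max_eq_right hRS]; linarith
  · rw [max_eq_right hPQ, max_eq_left hRS]
    by_cases hc : 2 * (P * S) ≤ Q * R
    · nlinarith
    · push Not at hc
      have : P * S ≤ P * R := mul_le_mul_of_nonneg_left hRS hP
      linarith
  · rw [max_eq_left hPQ, max_eq_right hRS]
    by_cases hc : 2 * (R * Q) ≤ P * S
    · linarith
    · push Not at hc
      have : Q * R ≤ P * R := mul_le_mul_of_nonneg_right hPQ hR
      nlinarith
  · rw [max_eq_left hPQ, max_eq_left hRS]; linarith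

theorem pair_bound (u v : ℚ) (U0 U1 U2 : ℤ) (h0 : U0 ≠ 0)
    (h1 : (u + v) * (U0 : ℚ) = (U1 : ℚ)) (h2 : u * v * (U0 : ℚ) = (U2 : ℚ)) :
    ∀ B : ℤ, |U0| ≤ B → |U1| ≤ B → |U2| ≤ B → mx u * mx v ≤ 2 * B := by
  intro B hB0 hB1 hB2
  have hcu : IsCoprime u.num (u.den : ℤ) := by
    have := u.reduced
    rw [Int.isCoprime_iff_gcd_eq_one]
    simpa [Int.gcd, Nat.Coprime] using this
  have hcv : IsCoprime v.num (v.den : ℤ) := by
    have := v.reduced
    rw [Int.isCoprime_iff_gcd_eq_one]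
    simpa [Int.gcd, Nat.Coprime] using this
  obtain ⟨α, β, hab⟩ := hcu
  obtain ⟨γ, δ, hcd⟩ := hcv
  have e1 : (u.num * (v.den : ℤ) + v.num * (u.den : ℤ)) * U0 =
      U1 * ((u.den : ℤ) * (v.den : ℤ)) := by
    have : ((u.num : ℚ) * (v.den : ℚ) + (v.num : ℚ) * (u.den : ℚ)) * U0 =
        U1 * ((u.den : ℚ) * (v.den : ℚ)) := by
      rw [num_eq u, num_eq v]
      linear_combination ((u.den : ℚ) * (v.den : ℚ)) * h1
    exact_mod_cast this
  have e2 : (u.num * v.num) * U0 = U2 * ((u.den : ℤ) * (v.den : ℤ)) := by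
    have : ((u.num : ℚ) * (v.num : ℚ)) * U0 = U2 * ((u.den : ℚ) * (v.den : ℚ)) := by
      rw [num_eq u, num_eq v]
      linear_combination ((u.den : ℚ) * (v.den : ℚ)) * h2
    exact_mod_cast this
  obtain ⟨t, ht⟩ := bez u.num u.den v.num v.den U0 U1 U2 α β γ δ hab hcd e1 e2
  have ht0 : t ≠ 0 := by
    rintro rfl
    apply h0
    rw [ht]; ring
  have ht1 : 1 ≤ |t| := Int.one_le_abs ht0
  have hud : (u.den : ℤ) ≠ 0 := by exact_mod_cast u.den_nz
  have hvd : (v.den : ℤ) ≠ 0 := by exact_mod_cast v.den_nz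
  have hW : (u.den : ℤ) * (v.den : ℤ) ≠ 0 := mul_ne_zero hud hvd
  have f1 : U1 = (u.num * (v.den : ℤ) + v.num * (u.den : ℤ)) * t := by
    apply mul_left_cancel₀ hW
    rw [ht] at e1
    linear_combination -e1
  have f2 : U2 = (u.num * v.num) * t := by
    apply mul_left_cancel₀ hW
    rw [ht] at e2
    linear_combination -e2
  have key : ∀ W : ℤ, |W * t| ≤ B → |W| ≤ B := by
    intro W hWB
    calc |W| = |W| * 1 := by ring
      _ ≤ |W| * |t| := by gcongr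
      _ = |W * t| := (abs_mul _ _).symm
      _ ≤ B := hWB
  have g0 := key _ (ht ▸ hB0)
  have g1 := key _ (f1 ▸ hB1)
  have g2 := key _ (f2 ▸ hB2)
  have hu0 : (0 : ℤ) ≤ u.den := by positivity
  have hv0 : (0 : ℤ) ≤ v.den := by positivity
  refine four_cases |u.num| u.den |v.num| v.den B (abs_nonneg _) hu0 (abs_nonneg _) hv0
    (le_trans (le_abs_self _) g0) ?_ ?_ ?_
  · have h3 : |u.num| * (v.den : ℤ) = |u.num * (v.den : ℤ)| := by
      rw [abs_mul, abs_of_nonneg hv0]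
    have h4 : |v.num| * (u.den : ℤ) = |v.num * (u.den : ℤ)| := by
      rw [abs_mul, abs_of_nonneg hu0]
    rw [h3, h4]
    have := abs_sub_abs_le_abs_sub (u.num * (v.den : ℤ)) (-(v.num * (u.den : ℤ)))
    rw [abs_neg, sub_neg_eq_add] at this
    linarith
  · have h3 : |u.num| * (v.den : ℤ) = |u.num * (v.den : ℤ)| := by
      rw [abs_mul, abs_of_nonneg hv0]
    have h4 : |v.num| * (u.den : ℤ) = |v.num * (u.den : ℤ)| := by
      rw [abs_mul, abs_of_nonneg hu0]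
    rw [h3, h4]
    have := abs_sub_abs_le_abs_sub (v.num * (u.den : ℤ)) (-(u.num * (v.den : ℤ)))
    rw [abs_neg, sub_neg_eq_add] at this
    rw [add_comm] at this
    linarith
  · rw [← abs_mul]; exact g2

theorem htp_zero {a b : ℚ} : htp (0 : (crv ℚ a b).Point) = 0 := by
  unfold htp
  simp

theorem htp_of_ne {a b : ℚ} (P : (crv ℚ a b).Point) (h : P ≠ 0) : htp P = ht (xc P) := by
  unfold htp
  simp [h]

theorem htp_nonneg {a b : ℚ} (P : (crv ℚ a b).Point) : 0 ≤ htp P := by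
  by_cases h : P = 0
  · rw [h, htp_zero]
  · rw [htp_of_ne P h]; exact ht_nonneg _

theorem abs_le_mx_num (q : ℚ) : |q.num| ≤ mx q := le_max_left _ _

theorem abs_le_mx_den (q : ℚ) : |(q.den : ℤ)| ≤ mx q := by
  have : (0 : ℤ) ≤ q.den := by positivity
  rw [abs_of_nonneg this]
  exact le_max_right _ _

theorem bU0 (x y N : ℤ) (hN : 0 ≤ N) (hx : |x| ≤ N) (hy : |y| ≤ N) (a b : ℤ) :
    |(x - y) ^ 2| ≤ (4 * (1 + |a|) ^ 2 + 8 * |b|) * N ^ 2 := by
  have h1 : |x - y| ≤ 2 * N := by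
    calc |x - y| ≤ |x| + |y| := abs_sub x y
      _ ≤ 2 * N := by linarith
  have h2 : |x - y| ^ 2 ≤ (2 * N) ^ 2 := pow_le_pow_left₀ (abs_nonneg _) h1 2
  have ha := abs_nonneg a
  have hb := abs_nonneg b
  have h3 : 0 ≤ (4 * (2 * |a| + |a| ^ 2) + 8 * |b|) * N ^ 2 := by positivity
  rw [abs_pow]
  nlinarith

theorem bU1 (x y z w N : ℤ) (hN : 0 ≤ N) (hx : |x| ≤ N) (hy : |y| ≤ N) (hz : |z| ≤ N)
    (hw : |w| ≤ N) (a b : ℤ) :
    |2 * (x + y) * (z + a * w) + 4 * b * w ^ 2| ≤ (4 * (1 + |a|) ^ 2 + 8 * |b|) * N ^ 2 := by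
  have ha := abs_nonneg a
  have hb := abs_nonneg b
  have h1 : |x + y| ≤ 2 * N := le_trans (abs_add_le x y) (by linarith)
  have h2 : |z + a * w| ≤ (1 + |a|) * N := by
    calc |z + a * w| ≤ |z| + |a * w| := abs_add_le _ _
      _ = |z| + |a| * |w| := by rw [abs_mul]
      _ ≤ N + |a| * N := by gcongr
      _ = (1 + |a|) * N := by ring
  have h3 : |w| ^ 2 ≤ N ^ 2 := pow_le_pow_left₀ (abs_nonneg _) hw 2
  have h4 : 0 ≤ (4 * (|a| + |a| ^ 2) + 4 * |b|) * N ^ 2 := by positivity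
  calc |2 * (x + y) * (z + a * w) + 4 * b * w ^ 2|
      ≤ |2 * (x + y) * (z + a * w)| + |4 * b * w ^ 2| := abs_add_le _ _
    _ = 2 * |x + y| * |z + a * w| + 4 * |b| * |w| ^ 2 := by
        rw [abs_mul, abs_mul, abs_mul, abs_mul, abs_pow]
        norm_num
    _ ≤ 2 * (2 * N) * ((1 + |a|) * N) + 4 * |b| * N ^ 2 := by gcongr
    _ ≤ (4 * (1 + |a|) ^ 2 + 8 * |b|) * N ^ 2 := by nlinarith

theorem bU2 (x y z w N : ℤ) (hN : 0 ≤ N) (hx : |x| ≤ N) (hy : |y| ≤ N) (hz : |z| ≤ N)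
    (hw : |w| ≤ N) (a b : ℤ) :
    |(z - a * w) ^ 2 - 4 * b * w * (x + y)| ≤ (4 * (1 + |a|) ^ 2 + 8 * |b|) * N ^ 2 := by
  have ha := abs_nonneg a
  have hb := abs_nonneg b
  have h1 : |x + y| ≤ 2 * N := le_trans (abs_add_le x y) (by linarith)
  have h2 : |z - a * w| ≤ (1 + |a|) * N := by
    calc |z - a * w| ≤ |z| + |a * w| := abs_sub _ _
      _ = |z| + |a| * |w| := by rw [abs_mul]
      _ ≤ N + |a| * N := by gcongr
      _ = (1 + |a|) * N := by ring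
  have h4 : 0 ≤ 3 * (1 + |a|) ^ 2 * N ^ 2 := by positivity
  calc |(z - a * w) ^ 2 - 4 * b * w * (x + y)|
      ≤ |(z - a * w) ^ 2| + |4 * b * w * (x + y)| := abs_sub _ _
    _ = |z - a * w| ^ 2 + 4 * |b| * |w| * |x + y| := by
        rw [abs_mul, abs_mul, abs_mul, abs_pow]
        norm_num
    _ ≤ ((1 + |a|) * N) ^ 2 + 4 * |b| * N * (2 * N) := by gcongr
    _ ≤ (4 * (1 + |a|) ^ 2 + 8 * |b|) * N ^ 2 := by nlinarith

theorem bF (A B M : ℤ) (hM : 0 ≤ M) (hA : |A| ≤ M) (hB : |B| ≤ M) (a b : ℤ) :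
    |A ^ 4 - 2 * a * A ^ 2 * B ^ 2 - 8 * b * A * B ^ 3 + a ^ 2 * B ^ 4| ≤
      (4 * (1 + |a|) ^ 2 + 8 * |b|) * M ^ 4 := by
  have ha := abs_nonneg a
  have hb := abs_nonneg b
  have h4 : 0 ≤ (3 + 6 * |a| + 3 * |a| ^ 2) * M ^ 4 := by positivity
  calc |A ^ 4 - 2 * a * A ^ 2 * B ^ 2 - 8 * b * A * B ^ 3 + a ^ 2 * B ^ 4|
      ≤ |A ^ 4| + |2 * a * A ^ 2 * B ^ 2| + |8 * b * A * B ^ 3| + |a ^ 2 * B ^ 4| := by
        refine le_trans (abs_add_le _ _) ?_
        gcongr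
        refine le_trans (abs_sub _ _) ?_
        gcongr
        exact abs_sub _ _
    _ = |A| ^ 4 + 2 * |a| * |A| ^ 2 * |B| ^ 2 + 8 * |b| * |A| * |B| ^ 3 + |a| ^ 2 * |B| ^ 4 := by
        simp only [abs_mul, abs_pow]
        norm_num
    _ ≤ M ^ 4 + 2 * |a| * M ^ 2 * M ^ 2 + 8 * |b| * M * M ^ 3 + |a| ^ 2 * M ^ 4 := by gcongr
    _ ≤ (4 * (1 + |a|) ^ 2 + 8 * |b|) * M ^ 4 := by nlinarith

theorem bG (A B M : ℤ) (hM : 0 ≤ M) (hA : |A| ≤ M) (hB : |B| ≤ M) (a b : ℤ) :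
    |4 * B * (A ^ 3 + a * A * B ^ 2 + b * B ^ 3)| ≤
      (4 * (1 + |a|) ^ 2 + 8 * |b|) * M ^ 4 := by
  have ha := abs_nonneg a
  have hb := abs_nonneg b
  have h4 : 0 ≤ (4 * |a| + 4 * |a| ^ 2 + 4 * |b|) * M ^ 4 := by positivity
  calc |4 * B * (A ^ 3 + a * A * B ^ 2 + b * B ^ 3)|
      = 4 * |B| * |A ^ 3 + a * A * B ^ 2 + b * B ^ 3| := by
        rw [abs_mul, abs_mul]; norm_num
    _ ≤ 4 * |B| * (|A ^ 3| + |a * A * B ^ 2| + |b * B ^ 3|) := by
        gcongr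
        refine le_trans (abs_add_le _ _) ?_
        gcongr
        exact abs_add_le _ _
    _ = 4 * |B| * (|A| ^ 3 + |a| * |A| * |B| ^ 2 + |b| * |B| ^ 3) := by
        simp only [abs_mul, abs_pow]
    _ ≤ 4 * M * (M ^ 3 + |a| * M * M ^ 2 + |b| * M ^ 3) := by gcongr
    _ ≤ (4 * (1 + |a|) ^ 2 + 8 * |b|) * M ^ 4 := by nlinarith

theorem x_den_mul (x : ℚ) : x * (x.den : ℚ) = (x.num : ℚ) := Rat.mul_den_eq_num x

/-- the case of different `x`-coordinates -/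
theorem gen_case (a b : ℤ) (x1 x2 u v : ℚ) (hne : x1 ≠ x2)
    (h1 : (u + v) * (x1 - x2) ^ 2 = 2 * (x1 + x2) * (x1 * x2 + a) + 4 * b)
    (h2 : u * v * (x1 - x2) ^ 2 = (x1 * x2 - a) ^ 2 - 4 * b * (x1 + x2)) :
    mx u * mx v ≤ 2 * ((4 * (1 + |a|) ^ 2 + 8 * |b|) * (mx x1 * mx x2) ^ 2) := by
  have hN : 0 ≤ mx x1 * mx x2 :=
    mul_nonneg (by linarith [one_le_mx x1]) (by linarith [one_le_mx x2])
  have hm1 : 0 ≤ mx x1 := by linarith [one_le_mx x1]
  have hm2 : 0 ≤ mx x2 := by linarith [one_le_mx x2]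
  have hx : |x1.num * (x2.den : ℤ)| ≤ mx x1 * mx x2 := by
    rw [abs_mul]
    exact mul_le_mul (abs_le_mx_num x1) (abs_le_mx_den x2) (abs_nonneg _) hm1
  have hy : |x2.num * (x1.den : ℤ)| ≤ mx x1 * mx x2 := by
    rw [abs_mul, mul_comm]
    exact mul_le_mul (abs_le_mx_den x1) (abs_le_mx_num x2) (abs_nonneg _) hm1
  have hz : |x1.num * x2.num| ≤ mx x1 * mx x2 := by
    rw [abs_mul]
    exact mul_le_mul (abs_le_mx_num x1) (abs_le_mx_num x2) (abs_nonneg _) hm1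
  have hw : |(x1.den : ℤ) * (x2.den : ℤ)| ≤ mx x1 * mx x2 := by
    rw [abs_mul]
    exact mul_le_mul (abs_le_mx_den x1) (abs_le_mx_den x2) (abs_nonneg _) hm1
  have g1 := x_den_mul x1
  have g2 := x_den_mul x2
  have hd1 : (x1.den : ℚ) ≠ 0 := by exact_mod_cast x1.den_nz
  have hd2 : (x2.den : ℚ) ≠ 0 := by exact_mod_cast x2.den_nz
  refine pair_bound u v ((x1.num * (x2.den : ℤ) - x2.num * (x1.den : ℤ)) ^ 2)
    (2 * (x1.num * (x2.den : ℤ) + x2.num * (x1.den : ℤ)) *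
      (x1.num * x2.num + a * ((x1.den : ℤ) * (x2.den : ℤ))) +
      4 * b * ((x1.den : ℤ) * (x2.den : ℤ)) ^ 2)
    ((x1.num * x2.num - a * ((x1.den : ℤ) * (x2.den : ℤ))) ^ 2 -
      4 * b * ((x1.den : ℤ) * (x2.den : ℤ)) *
        (x1.num * (x2.den : ℤ) + x2.num * (x1.den : ℤ)))
    ?_ ?_ ?_ _ (bU0 _ _ _ hN hx hy a b) (bU1 _ _ _ _ _ hN hx hy hz hw a b)
    (bU2 _ _ _ _ _ hN hx hy hz hw a b)
  · intro h0
    apply hne
    have h3 : x1.num * (x2.den : ℤ) - x2.num * (x1.den : ℤ) = 0 := by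
      exact pow_eq_zero_iff (two_ne_zero) |>.mp h0
    have h4 : (x1.num : ℚ) * (x2.den : ℚ) - (x2.num : ℚ) * (x1.den : ℚ) = 0 := by
      exact_mod_cast h3
    rw [← g1, ← g2] at h4
    have h5 : (x1 - x2) * ((x1.den : ℚ) * (x2.den : ℚ)) = 0 := by linear_combination h4
    rcases mul_eq_zero.mp h5 with h | h
    · linarith
    · exact absurd h (mul_ne_zero hd1 hd2)
  · push_cast
    rw [← g1, ← g2]
    linear_combination ((x1.den : ℚ) * (x2.den : ℚ)) ^ 2 * h1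
  · push_cast
    rw [← g1, ← g2]
    linear_combination ((x1.den : ℚ) * (x2.den : ℚ)) ^ 2 * h2

/-- duplication -/
theorem dup_case (a b : ℤ) (x w : ℚ) (h0 : x ^ 3 + a * x + b ≠ 0)
    (h : w * (4 * (x ^ 3 + a * x + b)) = x ^ 4 - 2 * a * x ^ 2 - 8 * b * x + a ^ 2) :
    mx w ≤ (4 * (1 + |a|) ^ 2 + 8 * |b|) * mx x ^ 4 := by
  have hm : 0 ≤ mx x := by linarith [one_le_mx x]
  have g := x_den_mul x
  have hd : (x.den : ℚ) ≠ 0 := by exact_mod_cast x.den_nz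
  refine quot_bound w (x.num ^ 4 - 2 * a * x.num ^ 2 * (x.den : ℤ) ^ 2 -
      8 * b * x.num * (x.den : ℤ) ^ 3 + a ^ 2 * (x.den : ℤ) ^ 4)
    (4 * (x.den : ℤ) * (x.num ^ 3 + a * x.num * (x.den : ℤ) ^ 2 + b * (x.den : ℤ) ^ 3)) ?_ ?_ _
    (bF _ _ _ hm (abs_le_mx_num x) (abs_le_mx_den x) a b)
    (bG _ _ _ hm (abs_le_mx_num x) (abs_le_mx_den x) a b)
  · intro h1
    have h2 : 4 * (x.den : ℚ) * ((x.num : ℚ) ^ 3 + a * (x.num : ℚ) * (x.den : ℚ) ^ 2 +
        b * (x.den : ℚ) ^ 3) = 0 := by exact_mod_cast h1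
    rw [← g] at h2
    have h3 : (4 * (x.den : ℚ) ^ 4) * (x ^ 3 + a * x + b) = 0 := by linear_combination h2
    rcases mul_eq_zero.mp h3 with h | h
    · have : (4 * (x.den : ℚ) ^ 4) ≠ 0 := by positivity
      exact this h
    · exact h0 h
  · push_cast
    rw [← g]
    linear_combination (x.den : ℚ) ^ 4 * h

theorem log_mono_int (m n : ℤ) (hm : 1 ≤ m) (h : m ≤ n) :
    Real.log (m : ℝ) ≤ Real.log (n : ℝ) := by
  apply Real.log_le_log
  · exact_mod_cast (by linarith : (0 : ℤ) < m)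
  · exact_mod_cast h

end Pool.Agent.Helper94.RRHUP

open Pool.Agent.H925R3.DC Pool.Agent.H925R3.DD Pool.Agent.H925R3.RR in
theorem Pool.Agent.Helper94.RRHUP.hup : Pool.Agent.H925R3.RR.HUP := by
  open Pool.Agent.Helper94.RRHUP in
  intro hFSP hFDB hFEQ a b _
  set C0 : ℤ := 4 * (1 + |a|) ^ 2 + 8 * |b| with hC0
  have ha := abs_nonneg a
  have hb := abs_nonneg b
  have hC0pos : 1 ≤ C0 := by
    rw [hC0]; nlinarith
  have hC0R : (1 : ℝ) ≤ (C0 : ℝ) := by exact_mod_cast hC0pos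
  have hlogC : 0 ≤ Real.log (2 * (C0 : ℝ)) := Real.log_nonneg (by linarith)
  refine ⟨Real.log (2 * (C0 : ℝ)), fun P Q => ?_⟩
  have hneg : ∀ R : (crv ℚ (a : ℚ) (b : ℚ)).Point, htp (-R) = htp R := by
    intro R
    by_cases hR : R = 0
    · rw [hR, neg_zero]
    · have hR' : -R ≠ 0 := neg_ne_zero.mpr hR
      rw [htp_of_ne _ hR, htp_of_ne _ hR', (hFEQ ℚ (a : ℚ) (b : ℚ) R R).1]
  have hdup : ∀ R : (crv ℚ (a : ℚ) (b : ℚ)).Point,
      htp (R + R) ≤ 4 * htp R + Real.log (2 * (C0 : ℝ)) := by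
    intro R
    by_cases hR : R = 0
    · rw [hR, add_zero, htp_zero]; linarith
    by_cases hRR : R + R = 0
    · rw [hRR, htp_zero]
      have := htp_nonneg R
      linarith
    · rw [htp_of_ne _ hR, htp_of_ne _ hRR, ht_eq, ht_eq]
      obtain ⟨h1, h2⟩ := hFDB ℚ (a : ℚ) (b : ℚ) R hR hRR
      have h3 := dup_case a b _ _ h1 h2
      have h4 := log_mono_int _ _ (one_le_mx _) h3
      have hm : (0 : ℝ) < (mx (xc R) : ℝ) := by
        exact_mod_cast (by linarith [one_le_mx (xc R)] : (0 : ℤ) < mx (xc R))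
      have h5 : Real.log (((4 * (1 + |a|) ^ 2 + 8 * |b|) * mx (xc R) ^ 4 : ℤ) : ℝ) =
          Real.log (C0 : ℝ) + 4 * Real.log (mx (xc R) : ℝ) := by
        rw [← hC0]
        push_cast
        rw [Real.log_mul (by positivity) (by positivity), Real.log_pow]
        norm_num
      have h6 : Real.log (C0 : ℝ) ≤ Real.log (2 * (C0 : ℝ)) := by
        apply Real.log_le_log (by linarith) (by linarith)
      linarith
  by_cases hP : P = 0
  · rw [hP, zero_add, zero_sub, hneg, htp_zero]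
    linarith
  by_cases hQ : Q = 0
  · rw [hQ, add_zero, sub_zero, htp_zero]
    linarith
  by_cases hx : xc P = xc Q
  · rcases (hFEQ ℚ (a : ℚ) (b : ℚ) P Q).2.1 hP hQ hx with h | h
    · rw [h, sub_self, htp_zero]
      have := hdup Q
      linarith
    · rw [h, neg_add_cancel, htp_zero, hneg]
      have h1 : -Q - Q = -(Q + Q) := by abel
      rw [h1, hneg]
      have := hdup Q
      linarith
  · obtain ⟨h1, h2, h3, h4⟩ := hFSP ℚ (a : ℚ) (b : ℚ) P Q hP hQ hx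
    rw [htp_of_ne _ h1, htp_of_ne _ h2, htp_of_ne _ hP, htp_of_ne _ hQ, ht_eq, ht_eq, ht_eq, ht_eq]
    have h5 := gen_case a b _ _ _ _ hx h3 h4
    have hpos : ∀ q : ℚ, (0 : ℝ) < (mx q : ℝ) := by
      intro q
      exact_mod_cast (by linarith [one_le_mx q] : (0 : ℤ) < mx q)
    have k1 := hpos (xc (P + Q))
    have k2 := hpos (xc (P - Q))
    have k3 := hpos (xc P)
    have k4 := hpos (xc Q)
    have h6 : ((mx (xc (P + Q)) : ℤ) : ℝ) * ((mx (xc (P - Q)) : ℤ) : ℝ) ≤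
        2 * ((C0 : ℝ) * (((mx (xc P) : ℤ) : ℝ) * ((mx (xc Q) : ℤ) : ℝ)) ^ 2) := by
      rw [← hC0] at h5
      exact_mod_cast h5
    have h7 := Real.log_le_log (by positivity) h6
    rw [Real.log_mul k1.ne' k2.ne'] at h7
    have h8 : Real.log (2 * ((C0 : ℝ) * (((mx (xc P) : ℤ) : ℝ) * ((mx (xc Q) : ℤ) : ℝ)) ^ 2)) =
        Real.log (2 * (C0 : ℝ)) + 2 * Real.log ((mx (xc P) : ℤ) : ℝ) +
          2 * Real.log ((mx (xc Q) : ℤ) : ℝ) := by
      rw [← mul_assoc, Real.log_mul (by positivity) (by positivity), Real.log_pow,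
        Real.log_mul k3.ne' k4.ne']
      push_cast
      ring
    rw [h8] at h7
    linarith
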