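import Mathlib
import Pool.Agent.H922R2.OPC.Stubs
set_option autoImplicit false

/-! Order of the pole = dimension of the quotient (task DIM of project OPC). -/

open MvPolynomial

namespace Pool.Agent.Helper94.OPCDIM

open Pool.Agent.H922R2.OPC

variable {k : Type} [Field k]

/-- Laurent series with a pole of order at most `m` -/
def G (k : Type) [Field k] (m : ℕ) : Submodule k (LaurentSeries k) where
  carrier := {g | Ge (-(m : ℤ)) g}
  add_mem' := by
    intro a b ha hb i hi
    rw [HahnSeries.coeff_add, ha i hi, hb i hi, add_zero]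
  zero_mem' := by intro i _; rfl
  smul_mem' := by
    intro c a ha i hi
    rw [HahnSeries.coeff_smul, ha i hi, smul_zero]

/-- the coefficients of index `a, ..., a + e - 1` -/
def cf (k : Type) [Field k] (a : ℤ) (e : ℕ) : LaurentSeries k →ₗ[k] (Fin e → k) where
  toFun g i := g.coeff (a + ((i : ℕ) : ℤ))
  map_add' := by intro g h; ext i; simp
  map_smul' := by intro c g; ext i; simp

theorem ge_of_cf (a : ℤ) (e : ℕ) (g : LaurentSeries k) (h : Ge a g) (h0 : cf k a e g = 0) :
    Ge (a + e) g := by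
  intro i hi
  by_cases hia : i < a
  · exact h i hia
  · push Not at hia
    have h1 : (i - a).toNat < e := by omega
    have h2 : g.coeff (a + (((i - a).toNat : ℕ) : ℤ)) = 0 := congrFun h0 ⟨(i - a).toNat, h1⟩
    have h3 : a + (((i - a).toNat : ℕ) : ℤ) = i := by omega
    rw [h3] at h2
    exact h2

theorem fin_W (S : Submodule k (LaurentSeries k)) (hS : ∀ g ∈ S, Ge 1 g → g = 0) (m : ℕ) :
    Module.Finite k ↥(S ⊓ G k m) ∧ Module.finrank k ↥(S ⊓ G k m) ≤ m + 1 := by
  let F : ↥(S ⊓ G k m) →ₗ[k] (Fin (m + 1) → k) :=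
    (cf k (-(m : ℤ)) (m + 1)).comp (S ⊓ G k m).subtype
  have hF : Function.Injective F := by
    rw [← LinearMap.ker_eq_bot, LinearMap.ker_eq_bot']
    rintro ⟨g, hg⟩ h0
    have h1 : Ge (-(m : ℤ) + ((m + 1 : ℕ) : ℤ)) g := ge_of_cf _ _ _ hg.2 h0
    have h2 : Ge 1 g := by
      have : -(m : ℤ) + ((m + 1 : ℕ) : ℤ) = 1 := by push_cast; ring
      rwa [this] at h1
    have h3 := hS g hg.1 h2
    exact Subtype.ext h3
  refine ⟨Module.Finite.of_injective F hF, ?_⟩
  have := LinearMap.finrank_le_finrank_of_injective hF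
  simpa using this

theorem step_W (S : Submodule k (LaurentSeries k)) (hS : ∀ g ∈ S, Ge 1 g → g = 0) (m e : ℕ) :
    Module.finrank k ↥(S ⊓ G k (m + e)) ≤ Module.finrank k ↥(S ⊓ G k m) + e := by
  have := (fin_W S hS (m + e)).1
  have := (fin_W S hS m).1
  let F : ↥(S ⊓ G k (m + e)) →ₗ[k] (Fin e → k) :=
    (cf k (-((m + e : ℕ) : ℤ)) e).comp (S ⊓ G k (m + e)).subtype
  have h1 := LinearMap.finrank_range_add_finrank_ker F
  have h2 : Module.finrank k (LinearMap.range F) ≤ e := by
    have := Submodule.finrank_le (LinearMap.range F)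
    simpa using this
  have h3 : Module.finrank k (LinearMap.ker F) ≤ Module.finrank k ↥(S ⊓ G k m) := by
    rw [← Submodule.finrank_map_subtype_eq]
    apply Submodule.finrank_mono
    rintro _ ⟨⟨g, hg⟩, hk, rfl⟩
    refine ⟨hg.1, ?_⟩
    have h4 : Ge (-((m + e : ℕ) : ℤ) + (e : ℤ)) g :=
      ge_of_cf _ _ _ hg.2 (LinearMap.mem_ker.mp hk)
    have : -((m + e : ℕ) : ℤ) + (e : ℤ) = -(m : ℤ) := by push_cast; ring
    rw [this] at h4
    exact h4
  omega

theorem G_mono {m m' : ℕ} (h : m ≤ m') : G k m ≤ G k m' := by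
  intro g hg i hi
  exact hg i (by omega)

theorem exists_G (g : LaurentSeries k) : ∃ m : ℕ, g ∈ G k m := by
  refine ⟨(-g.order).toNat, ?_⟩
  intro i hi
  apply HahnSeries.coeff_eq_zero_of_lt_order
  omega

theorem sp_coeff (μ : k) (h : L k) (i : ℤ) : (sp μ h).coeff i = (h.coeff i).eval μ := by
  simp [sp]

/-- `x ↦ X`, `y ↦ Y` -/
noncomputable def Th (k : Type) [Field k] : B k →ₐ[k] Polynomial (Polynomial k) :=
  aeval ![Polynomial.C Polynomial.X, Polynomial.X]

theorem Th_x : Th k (X 0) = Polynomial.C Polynomial.X := by simp [Th]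
theorem Th_y : Th k (X 1) = Polynomial.X := by simp [Th]

theorem Th_aeval (p : Polynomial k) :
    Th k (Polynomial.aeval (X 0 : B k) p) = Polynomial.C p := by
  rw [← Polynomial.aeval_algHom_apply, Th_x]
  have h : (Polynomial.C Polynomial.X : Polynomial (Polynomial k)) =
      (Polynomial.CAlgHom : Polynomial k →ₐ[k] Polynomial (Polynomial k)) Polynomial.X := rfl
  rw [h, Polynomial.aeval_algHom_apply, Polynomial.aeval_X_left_apply]
  rfl

/-- the elements `x^i y^j`, `i < T`, `j < n`, are linearly independent modulo `f` -/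
theorem indep (n : ℕ) (f : B k) (a : ℕ → Polynomial k)
    (hf : f = X 1 ^ n + ∑ j ∈ Finset.range n, Polynomial.aeval (X 0) (a j) * X 1 ^ j)
    (T : ℕ) (c : Fin T × Fin n → k)
    (hd : f ∣ ∑ p : Fin T × Fin n, c p • ((X 0 : B k) ^ (p.1 : ℕ) * X 1 ^ (p.2 : ℕ))) :
    ∀ p, c p = 0 := by
  -- image under `Th`
  have hTf : Th k f = Polynomial.X ^ n +
      ∑ j ∈ Finset.range n, Polynomial.C (a j) * Polynomial.X ^ j := by
    rw [hf, map_add, map_pow, Th_y, map_sum]
    congr 1
    apply Finset.sum_congr rfl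
    intro j _
    rw [map_mul, map_pow, Th_y, Th_aeval]
  have hdeg : (∑ j ∈ Finset.range n,
      (Polynomial.C (a j) * Polynomial.X ^ j : Polynomial (Polynomial k))).degree < n := by
    refine Polynomial.mem_degreeLT.mp (Submodule.sum_mem _ fun j hj => ?_)
    refine Polynomial.mem_degreeLT.mpr ?_
    refine lt_of_le_of_lt (Polynomial.degree_C_mul_X_pow_le j (a j)) ?_
    exact_mod_cast Finset.mem_range.mp hj
  have hmon : (Th k f).Monic := by
    rw [hTf]
    exact Polynomial.monic_X_pow_add hdeg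
  have hdegf : (Th k f).degree = n := by
    rw [hTf, Polynomial.degree_add_eq_left_of_degree_lt]
    · exact Polynomial.degree_X_pow n
    · rw [Polynomial.degree_X_pow]; exact hdeg
  set g : B k := ∑ p : Fin T × Fin n, c p • ((X 0 : B k) ^ (p.1 : ℕ) * X 1 ^ (p.2 : ℕ)) with hg
  have hTg : Th k g = ∑ p : Fin T × Fin n,
      Polynomial.C (Polynomial.C (c p) * Polynomial.X ^ (p.1 : ℕ)) * Polynomial.X ^ (p.2 : ℕ) := by
    rw [hg, map_sum]
    apply Finset.sum_congr rfl
    intro p _
    rw [map_smul, map_mul, map_pow, map_pow, Th_x, Th_y, Algebra.smul_def]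
    rw [Polynomial.C_mul, Polynomial.C_pow]
    have : (algebraMap k (Polynomial (Polynomial k))) (c p) =
        Polynomial.C (Polynomial.C (c p)) := rfl
    rw [this]
    ring
  have hdegg : (Th k g).degree < n := by
    rw [hTg]
    refine Polynomial.mem_degreeLT.mp (Submodule.sum_mem _ fun p _ => ?_)
    refine Polynomial.mem_degreeLT.mpr ?_
    refine lt_of_le_of_lt (Polynomial.degree_C_mul_X_pow_le _ _) ?_
    exact_mod_cast p.2.2
  have hdvd : Th k f ∣ Th k g := map_dvd (Th k) hd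
  have h0 : Th k g = 0 := by
    by_contra hne
    have := Polynomial.degree_le_of_dvd hdvd hne
    rw [hdegf] at this
    exact absurd hdegg (not_lt.mpr this)
  intro p
  have h1 : ((Th k g).coeff (p.2 : ℕ)).coeff (p.1 : ℕ) = 0 := by rw [h0]; simp
  rw [hTg, Polynomial.finsetSum_coeff, Polynomial.finsetSum_coeff] at h1
  rw [Finset.sum_eq_single p] at h1
  · rwa [Polynomial.coeff_C_mul, Polynomial.coeff_X_pow, if_pos rfl, mul_one,
      Polynomial.coeff_C_mul, Polynomial.coeff_X_pow, if_pos rfl, mul_one] at h1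
  · intro r _ hr
    rw [Polynomial.coeff_C_mul, Polynomial.coeff_X_pow]
    by_cases h2 : (p.2 : ℕ) = (r.2 : ℕ)
    · rw [if_pos h2, mul_one, Polynomial.coeff_C_mul, Polynomial.coeff_X_pow]
      by_cases h3 : (p.1 : ℕ) = (r.1 : ℕ)
      · exact absurd (Prod.ext (Fin.ext h3.symm) (Fin.ext h2.symm)) hr
      · rw [if_neg h3, mul_zero]
    · rw [if_neg h2, mul_zero, Polynomial.coeff_zero]
  · intro h; exact absurd (Finset.mem_univ p) h

theorem algC (c : k) : (algebraMap k (L k) c) = HahnSeries.C (Polynomial.C c) := by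
  rw [HahnSeries.algebraMap_apply', PowerSeries.algebraMap_apply, HahnSeries.ofPowerSeries_C]
  rfl

theorem ev_smul (n : ℕ) (φ : L k) (c : k) (a : B k) :
    sp 0 (ev n φ (c • a)) = c • sp 0 (ev n φ a) := by
  ext i
  rw [MvPolynomial.smul_eq_C_mul, map_mul]
  have h1 : ev n φ (C c) = HahnSeries.C (Polynomial.C c) := by
    rw [← algC c]
    exact (ev n φ).commutes c
  rw [h1, HahnSeries.C_mul_eq_smul, HahnSeries.coeff_smul]
  simp [sp]

/-- multiplication by `u` -/
noncomputable def mulh (u : LaurentSeries k) : LaurentSeries k →ₗ[k] LaurentSeries k where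
  toFun g := u * g
  map_add' := by intro a b; rw [mul_add]
  map_smul' := by
    intro c a
    simp only [RingHom.id_apply]
    rw [← HahnSeries.C_mul_eq_smul, ← HahnSeries.C_mul_eq_smul]
    ring

theorem G_mul (hMUL : S_MUL) {a b : ℕ} {g h : LaurentSeries k} (hg : g ∈ G k a) (hh : h ∈ G k b) :
    g * h ∈ G k (a + b) := by
  have h1 := (hMUL k (-(a : ℤ)) (-(b : ℤ)) g h hg hh).1
  have h2 : -((a + b : ℕ) : ℤ) = -(a : ℤ) + -(b : ℤ) := by push_cast; ring
  change Ge (-((a + b : ℕ) : ℤ)) (g * h)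
  rw [h2]; exact h1

theorem G_one : (1 : LaurentSeries k) ∈ G k 0 := by
  intro i hi
  have : i ≠ 0 := by
    intro h
    rw [h] at hi
    simp at hi
  rw [HahnSeries.coeff_one, if_neg this]

theorem G_pow (hMUL : S_MUL) {a : ℕ} {g : LaurentSeries k} (hg : g ∈ G k a) (i : ℕ) :
    g ^ i ∈ G k (i * a) := by
  induction i with
  | zero => rw [pow_zero, zero_mul]; exact G_one
  | succ i ih =>
    rw [pow_succ, Nat.succ_mul]
    exact G_mul hMUL ih hg

theorem dim (k : Type) [Field k] [IsAlgClosed k] [CharZero k] : S_DIM k := by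
  intro hMUL hSPR n f φ ζ hOP hMON hker hpos h d hfin hrank hne
  obtain ⟨R, hR⟩ := hSPR 0
  have hn : 0 < n := hOP.1
  -- the specialisation as a linear map
  have hmulR : ∀ a b : B k, sp 0 (ev n φ (a * b)) = sp 0 (ev n φ a) * sp 0 (ev n φ b) := by
    intro a b
    rw [← hR, ← hR, ← hR, map_mul, map_mul]
  have haddR : ∀ a b : B k, sp 0 (ev n φ (a + b)) = sp 0 (ev n φ a) + sp 0 (ev n φ b) := by
    intro a b
    rw [← hR, ← hR, ← hR, map_add, map_add]
  have hsmulR : ∀ (c : k) (a : B k), sp 0 (ev n φ (c • a)) = c • sp 0 (ev n φ a) :=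
    fun c a => ev_smul n φ c a
  let sL : B k →ₗ[k] LaurentSeries k :=
    { toFun := fun a => sp 0 (ev n φ a)
      map_add' := haddR
      map_smul' := hsmulR }
  have hsL : ∀ a, sL a = sp 0 (ev n φ a) := fun a => rfl
  have hmul : ∀ a b, sL (a * b) = sL a * sL b := hmulR
  have hkerf : ∀ a, sL a = 0 ↔ f ∣ a := by
    intro a
    have := hker a
    rwa [C_0, sub_zero] at this
  have hf0 : sL f = 0 := (hkerf f).mpr (dvd_refl f)
  set S : Submodule k (LaurentSeries k) := LinearMap.range sL with hSdef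
  have hS : ∀ g ∈ S, Ge 1 g → g = 0 := by
    rintro _ ⟨a, rfl⟩ hg
    exact hpos a hg
  -- the order of `h`
  have hne' : sL h ≠ 0 := hne
  obtain ⟨d0, hd0, hd0'⟩ : ∃ d0 : ℕ, Ge (-(d0 : ℤ)) (sL h) ∧ (sL h).coeff (-(d0 : ℤ)) ≠ 0 := by
    have h1 : (sL h).coeff (sL h).order ≠ 0 := HahnSeries.coeff_order_eq_zero.not.mpr hne'
    have h2 : Ge (sL h).order (sL h) := fun i hi => HahnSeries.coeff_eq_zero_of_lt_order hi
    have h3 : (sL h).order ≤ 0 := by
      by_contra hc
      push Not at hc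
      apply hne'
      apply hS _ ⟨h, rfl⟩
      intro i hi
      exact h2 i (by omega)
    refine ⟨(-(sL h).order).toNat, ?_, ?_⟩
    · have : -(((-(sL h).order).toNat : ℕ) : ℤ) = (sL h).order := by omega
      rw [this]; exact h2
    · have : -(((-(sL h).order).toNat : ℕ) : ℤ) = (sL h).order := by omega
      rw [this]; exact h1
  suffices hdd : d = d0 by
    subst hdd
    exact ⟨hd0, hd0'⟩
  -- the quotient
  let Q := B k ⧸ Ideal.span {f, h}
  let π : B k →ₗ[k] Q := (Ideal.Quotient.mkₐ k (Ideal.span {f, h})).toLinearMap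
  have hπ0 : ∀ a, π a = 0 ↔ a ∈ Ideal.span {f, h} := by
    intro a
    exact Ideal.Quotient.eq_zero_iff_mem
  have hπs : Function.Surjective π := Ideal.Quotient.mk_surjective
  obtain ⟨σ, hσ⟩ := LinearMap.exists_rightInverse_of_surjective sL.rangeRestrict
    (LinearMap.range_rangeRestrict sL)
  let ρ : ↥S →ₗ[k] Q := π ∘ₗ σ
  have hρ : ∀ a : B k, ρ ⟨sL a, ⟨a, rfl⟩⟩ = π a := by
    intro a
    have h1 : sL.rangeRestrict (σ ⟨sL a, ⟨a, rfl⟩⟩) = ⟨sL a, ⟨a, rfl⟩⟩ :=
      LinearMap.congr_fun hσ ⟨sL a, ⟨a, rfl⟩⟩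
    have h2 : sL (σ ⟨sL a, ⟨a, rfl⟩⟩) = sL a := congrArg Subtype.val h1
    have h3 : sL (σ ⟨sL a, ⟨a, rfl⟩⟩ - a) = 0 := by rw [map_sub, h2, sub_self]
    have h4 : f ∣ σ ⟨sL a, ⟨a, rfl⟩⟩ - a := (hkerf _).mp h3
    have h5 : σ ⟨sL a, ⟨a, rfl⟩⟩ - a ∈ Ideal.span {f, h} :=
      Ideal.mem_of_dvd _ h4 (Ideal.subset_span (by simp))
    have h6 : π (σ ⟨sL a, ⟨a, rfl⟩⟩ - a) = 0 := (hπ0 _).mpr h5
    rw [map_sub, sub_eq_zero] at h6
    exact h6
  let ρm : (m : ℕ) → ↥(S ⊓ G k m) →ₗ[k] Q := fun m =>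
    ρ ∘ₗ Submodule.inclusion (inf_le_left : S ⊓ G k m ≤ S)
  -- the kernel
  have hkerm : ∀ m : ℕ, (LinearMap.ker (ρm (m + d0))).map (S ⊓ G k (m + d0)).subtype =
      (S ⊓ G k m).map (mulh (sL h)) := by
    intro m
    apply le_antisymm
    · rintro _ ⟨⟨g, hg⟩, hk, rfl⟩
      obtain ⟨a, ha⟩ := hg.1
      subst ha
      have h1 : π a = 0 := by
        have := LinearMap.mem_ker.mp hk
        rw [← hρ a]
        exact this
      obtain ⟨u, v, huv⟩ := Ideal.mem_span_pair.mp ((hπ0 a).mp h1)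
      have h2 : sL a = sL h * sL v := by
        rw [← huv, map_add, hmul, hmul, hf0, mul_zero, zero_add, mul_comm]
      refine ⟨sL v, ⟨⟨v, rfl⟩, ?_⟩, h2.symm⟩
      by_cases hv : sL v = 0
      · rw [hv]; exact Submodule.zero_mem _
      · intro i hi
        by_contra hc
        have h3 : (sL v).coeff (sL v).order ≠ 0 := HahnSeries.coeff_order_eq_zero.not.mpr hv
        have h4 : Ge (sL v).order (sL v) := fun i hi => HahnSeries.coeff_eq_zero_of_lt_order hi
        have h5 := (hMUL k (-(d0 : ℤ)) (sL v).order (sL h) (sL v) hd0 h4).2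
        have h6 : (sL h * sL v).coeff (-(d0 : ℤ) + (sL v).order) ≠ 0 := by
          rw [h5]; exact mul_ne_zero hd0' h3
        rw [← h2] at h6
        have h7 : ¬ (-(d0 : ℤ) + (sL v).order < -((m + d0 : ℕ) : ℤ)) := by
          intro h8
          exact h6 (hg.2 _ h8)
        apply hc
        apply h4
        push_cast at h7
        omega
    · rintro _ ⟨g, ⟨⟨v, rfl⟩, hv⟩, rfl⟩
      have h1 : sL (h * v) = sL h * sL v := hmul h v
      have h2 : Ge (-((m + d0 : ℕ) : ℤ)) (sL (h * v)) := by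
        have h3 := (hMUL k (-(d0 : ℤ)) (-(m : ℤ)) (sL h) (sL v) hd0 hv).1
        rw [h1]
        have : -((m + d0 : ℕ) : ℤ) = -(d0 : ℤ) + -(m : ℤ) := by push_cast; ring
        rw [this]; exact h3
      refine ⟨⟨sL (h * v), ⟨⟨h * v, rfl⟩, h2⟩⟩, ?_, h1⟩
      apply LinearMap.mem_ker.mpr
      have h4 : ρ ⟨sL (h * v), ⟨h * v, rfl⟩⟩ = π (h * v) := hρ (h * v)
      have h5 : π (h * v) = 0 := (hπ0 _).mpr
        (Ideal.mul_mem_right _ _ (Ideal.subset_span (by simp)))
      exact h4.trans h5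
  have hinjh : Function.Injective (mulh (sL h)) := by
    intro a b hab
    exact mul_left_cancel₀ hne' hab
  have hkr : ∀ m : ℕ, Module.finrank k (LinearMap.ker (ρm (m + d0))) =
      Module.finrank k ↥(S ⊓ G k m) := by
    intro m
    rw [← Submodule.finrank_map_subtype_eq, hkerm m]
    exact (Submodule.equivMapOfInjective (mulh (sL h)) hinjh (S ⊓ G k m)).finrank_eq.symm
  have hfinQ : Module.Finite k Q := hfin
  have hrankQ : Module.finrank k Q = d := hrank
  have hkey : ∀ m : ℕ, Module.finrank k (LinearMap.range (ρm (m + d0))) +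
      Module.finrank k ↥(S ⊓ G k m) = Module.finrank k ↥(S ⊓ G k (m + d0)) := by
    intro m
    have := (fin_W S hS (m + d0)).1
    rw [← hkr m]
    exact LinearMap.finrank_range_add_finrank_ker (ρm (m + d0))
  have hrle : ∀ m : ℕ, Module.finrank k (LinearMap.range (ρm (m + d0))) ≤ d := by
    intro m
    rw [← hrankQ]
    exact Submodule.finrank_le _
  apply le_antisymm
  · -- `d ≤ d0`
    obtain ⟨m, hm⟩ : ∃ m : ℕ, LinearMap.range (ρm (m + d0)) = ⊤ := by
      obtain ⟨t, ht⟩ := hfinQ.fg_top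
      choose b hb using hπs
      choose mg hmg using fun g : LaurentSeries k => exists_G g
      refine ⟨t.sup (fun q => mg (sL (b q))), ?_⟩
      rw [eq_top_iff, ← ht, Submodule.span_le]
      intro q hq
      have h1 : sL (b q) ∈ G k (t.sup (fun q => mg (sL (b q))) + d0) :=
        G_mono (le_trans (Finset.le_sup (f := fun q => mg (sL (b q))) hq) (Nat.le_add_right _ _))
          (hmg (sL (b q)))
      refine ⟨⟨sL (b q), ⟨⟨b q, rfl⟩, h1⟩⟩, ?_⟩
      have h2 : ρ ⟨sL (b q), ⟨b q, rfl⟩⟩ = π (b q) := hρ (b q)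
      exact h2.trans (hb q)
    have h1 := hkey m
    rw [hm, finrank_top, hrankQ] at h1
    have h2 := step_W S hS m d0
    omega
  · -- `d0 ≤ d`
    by_contra hlt
    push Not at hlt
    have hup : ∀ N : ℕ, Module.finrank k ↥(S ⊓ G k (N * d0)) ≤ 1 + N * d := by
      intro N
      induction N with
      | zero =>
        have := (fin_W S hS 0).2
        rw [zero_mul, zero_mul]
        omega
      | succ N ih =>
        have h1 := hkey (N * d0)
        have h2 := hrle (N * d0)
        have e1 : (N + 1) * d0 = N * d0 + d0 := by ring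
        have e2 : (N + 1) * d = N * d + d := by ring
        rw [e1, e2]
        omega
    obtain ⟨q, hq⟩ := exists_G (sL (X 1))
    have hx : sL (X 0) ∈ G k n := by
      intro i hi
      rw [hsL, sp_coeff]
      have h1 : ev n φ (X 0) = tp (-(n : ℤ)) := by simp [ev]
      rw [h1]
      have h2 : (tp (-(n : ℤ)) : L k).coeff i = 0 := by
        unfold tp
        rw [HahnSeries.coeff_single_of_ne (by omega)]
      rw [h2, Polynomial.eval_zero]
    have hsL1 : sL 1 = 1 := by
      rw [hsL, ← hR, map_one, map_one]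
    have hpow : ∀ (a : B k) (i : ℕ), sL (a ^ i) = sL a ^ i := by
      intro a i
      induction i with
      | zero => rw [pow_zero, pow_zero, hsL1]
      | succ i ih => rw [pow_succ, pow_succ, hmul, ih]
    obtain ⟨a, ha⟩ := hMON n f φ ζ hOP
    have hlow : ∀ T : ℕ, T * n ≤ Module.finrank k ↥(S ⊓ G k (n * (T + q))) := by
      intro T
      have hmem : ∀ p : Fin T × Fin n,
          sL ((X 0 : B k) ^ (p.1 : ℕ) * X 1 ^ (p.2 : ℕ)) ∈ S ⊓ G k (n * (T + q)) := by
        intro p
        refine ⟨⟨_, rfl⟩, ?_⟩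
        rw [hmul, hpow, hpow]
        have h1 := G_mul hMUL (G_pow hMUL hx (p.1 : ℕ)) (G_pow hMUL hq (p.2 : ℕ))
        refine G_mono ?_ h1
        have h2 : (p.1 : ℕ) ≤ T := p.1.2.le
        have h3 : (p.2 : ℕ) ≤ n := p.2.2.le
        calc (p.1 : ℕ) * n + (p.2 : ℕ) * q ≤ T * n + n * q :=
              add_le_add (Nat.mul_le_mul_right _ h2) (Nat.mul_le_mul_right _ h3)
          _ = n * (T + q) := by ring
      have := (fin_W S hS (n * (T + q))).1
      have hli : LinearIndependent k (fun p : Fin T × Fin n =>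
          (⟨sL ((X 0 : B k) ^ (p.1 : ℕ) * X 1 ^ (p.2 : ℕ)), hmem p⟩ :
            ↥(S ⊓ G k (n * (T + q))))) := by
        rw [Fintype.linearIndependent_iff]
        intro c hc
        apply indep n f a ha T c
        rw [← hkerf, map_sum]
        have h1 := congrArg (S ⊓ G k (n * (T + q))).subtype hc
        rw [map_sum, map_zero] at h1
        rw [← h1]
        apply Finset.sum_congr rfl
        intro p _
        rw [map_smul, map_smul]
        rfl
      have h1 := hli.fintype_card_le_finrank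
      simpa using h1
    have h1 : q ≤ (q + 2) * d0 := by nlinarith
    obtain ⟨T, hT⟩ := Nat.exists_eq_add_of_le h1
    have h2 := hlow T
    have h3 := hup (n * (q + 2))
    have e1 : n * (q + 2) * d0 = n * (T + q) := by
      rw [mul_assoc, hT]; ring
    rw [e1] at h3
    have h4 : T * n ≤ 1 + n * (q + 2) * d := le_trans h2 h3
    have h5 : n * (q + 2) * (d + 1) ≤ n * (q + 2) * d0 := Nat.mul_le_mul_left _ hlt
    rw [e1] at h5
    nlinarith

end Pool.Agent.Helper94.OPCDIM
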